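import Pool.Agent.Lib.TG_h33.W2
import Pool.Agent.Lib.TG_h71.Count
import Pool.Agent.Lib.TG_h71.Gen

/-!
# TANK G, block B, row STEP

`PSys k kap`: the places of a function field `K / kap` of one variable (orders, degrees, product
formula). `f = (f_0; t_1, .., t_n)`, `kap = k(t_i / t_1)`.
-/

set_option autoImplicit false

open Function

namespace Pool.Agent.TG7

open Pool.Agent.TGh33 (Wr Wr_update_add Wr_update_smul)
open Pool.Agent.TGh71 (IsOrd dsum pol wgt count pol_drop exists_generic)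

universe u v w

section

variable {k : Type u} {K : Type v} [Field k] [Field K] [Algebra k K]

/-- The places of `K / kap`: orders, degrees, finite support, product formula. -/
structure PSys (kap : IntermediateField k K) where
  /-- the places -/
  ι : Type w
  /-- the orders -/
  o : ι → K → ℤ
  /-- the degrees -/
  dg : ι → ℕ
  isOrd : ∀ P, IsOrd k (o P)
  const : ∀ P, ∀ c ∈ kap, c ≠ 0 → o P c = 0
  fin : ∀ x : K, x ≠ 0 → (support fun P => o P x).Finite
  prod : ∀ x : K, x ≠ 0 → dsum dg (fun P => o P x) = 0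

variable {n : ℕ}

/-- `W (x; t)` as a linear function of `x`. -/
def WrL (D : Fin n → Derivation k K K) (t : Fin n → K) : K →ₗ[k] K where
  toFun x := Wr D (Fin.cons x t)
  map_add' x y := by
    have h := Wr_update_add D (Fin.cons x t) 0 x y
    rw [Fin.update_cons_zero, Fin.update_cons_zero, Fin.update_cons_zero] at h
    exact h
  map_smul' c x := by
    have h := Wr_update_smul D (Fin.cons x t) 0 c x
    rw [Fin.update_cons_zero, Fin.update_cons_zero] at h
    exact h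

theorem WrL_apply (D : Fin n → Derivation k K K) (t : Fin n → K) (x : K) :
    WrL D t x = Wr D (Fin.cons x t) := rfl

/-- `β (f)`: the weighted number of zeros of `W (f)` and of boundary places where `f_0 / t_1` has no
pole. -/
noncomputable def bet {kap : IntermediateField k K} (Y : PSys.{u, v, w} kap) (good : Set Y.ι)
    (t₁ f₀ W : K) : ℤ :=
  dsum Y.dg (wgt good (fun P => Y.o P t₁) (fun P => Y.o P f₀) (fun P => Y.o P W))

/-- the degree of the poles of `f_0 / t_1` -/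
noncomputable def pls {kap : IntermediateField k K} (Y : PSys.{u, v, w} kap) (t₁ f₀ : K) : ℤ :=
  dsum Y.dg (pol (fun P => Y.o P t₁) (fun P => Y.o P f₀))

/-- **The step.** `g ∈ S`, `f' = (g; t)`; `good` is cofinite, `t_1` is a unit and the elements of `S`
are integral at the good places. For a generic `f_0 ∈ S`:
`β (f') + d (f') ≤ β (f) + d (f)` and `d (f') + (poles of `f_0 / t_1` in `C`) ≤ d (f)` for every set
`C` of places at which `g / t_1` is integral. -/
theorem step [Infinite k] (D : Fin n → Derivation k K K) {kap : IntermediateField k K}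
    (Y : PSys.{u, v, w} kap) (good : Set Y.ι) (hg : (goodᶜ).Finite) (S : Submodule k K)
    (hS : S.FG) (t : Fin n → K) (t₁ : K) (ht₁ : t₁ ≠ 0) (hgt : ∀ P ∈ good, Y.o P t₁ = 0)
    (hgS : ∀ P ∈ good, ∀ s ∈ S, s ≠ 0 → 0 ≤ Y.o P s) {g : K} (hgS' : g ∈ S)
    (hW : Wr D (Fin.cons g t) ≠ 0) (F : Set (Submodule k K)) (hF : F.Finite)
    (hFS : ∀ H ∈ F, ¬ S ≤ H) :
    ∃ f₀ ∈ S, f₀ ≠ 0 ∧ Wr D (Fin.cons f₀ t) ≠ 0 ∧ (∀ H ∈ F, f₀ ∉ H) ∧
      (∀ P ∉ good, ∀ s ∈ S, s ≠ 0 → Y.o P f₀ ≤ Y.o P s) ∧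
      bet Y good t₁ g (Wr D (Fin.cons g t)) + pls Y t₁ g ≤
        bet Y good t₁ f₀ (Wr D (Fin.cons f₀ t)) + pls Y t₁ f₀ ∧
      ∀ C : Set Y.ι, (∀ P ∈ C, Y.o P t₁ ≤ Y.o P g) →
        pls Y t₁ g + dsum Y.dg (C.indicator (pol (fun P => Y.o P t₁) fun P => Y.o P f₀)) ≤
          pls Y t₁ f₀ := by
  obtain ⟨s, hs, hLs, hsF, hsm⟩ := exists_generic goodᶜ hg Y.o Y.isOrd S hS F hF hFS (WrL D t)
    ⟨g, hgS', hW⟩
  have hs0 : s ≠ 0 := by
    rintro rfl
    exact hLs (map_zero _)
  have hg0 : g ≠ 0 := by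
    rintro rfl
    exact hW (by rw [← WrL_apply, map_zero])
  have h2 : ∀ P, min (Y.o P s) (Y.o P t₁) ≤ Y.o P g := by
    intro P
    by_cases hP : P ∈ good
    · rw [hgt P hP]
      exact (min_le_right _ _).trans (hgS P hP g hgS' hg0)
    · exact (min_le_left _ _).trans ((hsm P hP).1 g hgS' hg0)
  refine ⟨s, hs, hs0, hLs, hsF, fun P hP => (hsm P hP).1, ?_, fun C hC => ?_⟩
  · exact count hg (Y.fin _ ht₁) (Y.fin _ hs0) (Y.fin _ hg0) (Y.fin _ hLs) (Y.fin _ hW)
      (Y.prod _ hLs) (Y.prod _ hW) (fun P hP => (hsm P hP).2 g hgS' hW) h2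
  · exact pol_drop (Y.fin _ ht₁) (Y.fin _ hs0) (Y.fin _ hg0) h2 C hC

end

end Pool.Agent.TG7
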