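import Mathlib

/-!
# TANK G, section B, row EXT: the extremal choice

`V` finite dimensional, `1 ∈ V`, `K = k(V)`. `Φ` is a function on subspaces with
`Φ (V ^ m) ≤ (n + 3) dV m ^ n + C m ^ (n - 1)` and `dim V ^ m ~ dV m ^ n / n!`. Then there are `m`
and a birational `S ≤ V ^ m` such that every hyperplane `S'` of `S` is birational and
`Φ S ≤ Φ S' + κ`, `κ = 3 (n + 3) n!`.
-/

set_option autoImplicit false

open Filter Topology

namespace Pool.Agent.TG7

universe u v

section Num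

/-- The numerical lemma. -/
theorem exists_m {n dV : ℕ} (hn : 0 < n) (hd : 0 < dV) (a : ℕ → ℕ) (c C : ℕ) (Φ : ℕ → ℕ)
    (ha : ∀ N, c ≤ N → dV * (N - c) ^ n ≤ n.factorial * a N)
    (hb : ∀ N, n.factorial * a N ≤ dV * (N + c) ^ n)
    (hΦ : ∀ m, Φ m ≤ (n + 3) * dV * m ^ n + C * m ^ (n - 1)) :
    ∀ M : ℕ, ∃ m, M ≤ m ∧ 5 * Φ m ≤ 2 * (3 * (n + 3) * n.factorial) * a m ∧
      5 * a (m + 1) + 10 < 6 * a m := by
  intro M
  -- real versions
  have hdR : (0 : ℝ) < dV := by exact_mod_cast hd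
  have hfR : (0 : ℝ) < n.factorial := by exact_mod_cast Nat.factorial_pos n
  have hn3 : (0 : ℝ) < (n : ℝ) + 3 := by positivity
  -- ((m - c) / m) ^ n → 1
  have t1 : Tendsto (fun m : ℕ => (((m : ℝ) - c) / m) ^ n) atTop (𝓝 1) := by
    have h1 : Tendsto (fun m : ℕ => (1 : ℝ) - c * ((m : ℝ))⁻¹) atTop (𝓝 (1 - c * 0)) :=
      (tendsto_const_nhds (x := (1 : ℝ))).sub
        (Tendsto.const_mul _ tendsto_inv_atTop_nhds_zero_nat)
    have h2 := h1.pow n
    rw [mul_zero, sub_zero, one_pow] at h2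
    refine h2.congr' ?_
    filter_upwards [eventually_gt_atTop 0] with m hm
    have hm' : (m : ℝ) ≠ 0 := by exact_mod_cast hm.ne'
    congr 1
    field_simp
  -- ((m + 1 + c) / m) ^ n → 1
  have t2 : Tendsto (fun m : ℕ => (((m : ℝ) + 1 + c) / m) ^ n) atTop (𝓝 1) := by
    have h1 : Tendsto (fun m : ℕ => (1 : ℝ) + (1 + c) * ((m : ℝ))⁻¹) atTop
        (𝓝 (1 + (1 + c) * 0)) :=
      (tendsto_const_nhds (x := (1 : ℝ))).add
        (Tendsto.const_mul _ tendsto_inv_atTop_nhds_zero_nat)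
    have h2 := h1.pow n
    rw [mul_zero, add_zero, one_pow] at h2
    refine h2.congr' ?_
    filter_upwards [eventually_gt_atTop 0] with m hm
    have hm' : (m : ℝ) ≠ 0 := by exact_mod_cast hm.ne'
    congr 1
    field_simp
    ring
  -- m⁻¹ → 0, (m ^ n)⁻¹ → 0
  have t3 : Tendsto (fun m : ℕ => ((m : ℝ))⁻¹) atTop (𝓝 0) := tendsto_inv_atTop_nhds_zero_nat
  have t4 : Tendsto (fun m : ℕ => (((m : ℝ)) ^ n)⁻¹) atTop (𝓝 0) := by
    have := t3.pow n
    rw [zero_pow hn.ne'] at this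
    refine this.congr fun m => ?_
    rw [inv_pow]
  -- first inequality: 5 ((n + 3) + C / (dV m)) ≤ 6 (n + 3) ((m - c) / m) ^ n
  have e1 : ∀ᶠ m : ℕ in atTop, 5 * (((n : ℝ) + 3) + C / dV * ((m : ℝ))⁻¹) <
      6 * ((n : ℝ) + 3) * (((m : ℝ) - c) / m) ^ n := by
    have h1 : Tendsto (fun m : ℕ => 5 * (((n : ℝ) + 3) + C / dV * ((m : ℝ))⁻¹)) atTop
        (𝓝 (5 * (((n : ℝ) + 3) + C / dV * 0))) :=
      Tendsto.const_mul _ ((tendsto_const_nhds (x := (n : ℝ) + 3)).add
        (Tendsto.const_mul _ t3))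
    have h2 : Tendsto (fun m : ℕ => 6 * ((n : ℝ) + 3) * (((m : ℝ) - c) / m) ^ n) atTop
        (𝓝 (6 * ((n : ℝ) + 3) * 1)) := Tendsto.const_mul _ t1
    refine h1.eventually_lt h2 ?_
    rw [mul_zero, add_zero, mul_one]
    nlinarith
  -- second inequality
  have e2 : ∀ᶠ m : ℕ in atTop, 5 * (((m : ℝ) + 1 + c) / m) ^ n +
      10 * n.factorial / dV * (((m : ℝ)) ^ n)⁻¹ < 6 * (((m : ℝ) - c) / m) ^ n := by
    have h1 : Tendsto (fun m : ℕ => 5 * (((m : ℝ) + 1 + c) / m) ^ n +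
        10 * n.factorial / dV * (((m : ℝ)) ^ n)⁻¹) atTop
        (𝓝 (5 * 1 + 10 * n.factorial / dV * 0)) :=
      (Tendsto.const_mul _ t2).add (Tendsto.const_mul _ t4)
    have h2 : Tendsto (fun m : ℕ => 6 * (((m : ℝ) - c) / m) ^ n) atTop (𝓝 (6 * 1)) :=
      Tendsto.const_mul _ t1
    refine h1.eventually_lt h2 ?_
    norm_num
  obtain ⟨m, hm1, hm2, hmM, hmc, hm0⟩ := (e1.and (e2.and ((eventually_ge_atTop M).and
    ((eventually_ge_atTop c).and (eventually_gt_atTop 0))))).exists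
  have hm0R : (0 : ℝ) < m := by exact_mod_cast hm0
  have hmn : (0 : ℝ) < (m : ℝ) ^ n := by positivity
  have haR : (dV : ℝ) * ((m : ℝ) - c) ^ n ≤ n.factorial * a m := by
    have h := ha m hmc
    have h' : ((dV * (m - c) ^ n : ℕ) : ℝ) ≤ ((n.factorial * a m : ℕ) : ℝ) := by exact_mod_cast h
    push_cast [Nat.cast_sub hmc] at h'
    exact h'
  have hbR : (n.factorial : ℝ) * a (m + 1) ≤ dV * ((m : ℝ) + 1 + c) ^ n := by
    have h := hb (m + 1)
    exact_mod_cast h
  have hΦR : (Φ m : ℝ) ≤ ((n : ℝ) + 3) * dV * (m : ℝ) ^ n + C * (m : ℝ) ^ (n - 1) := by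
    have h := hΦ m
    exact_mod_cast h
  have hpow : (m : ℝ) ^ (n - 1) = (m : ℝ) ^ n * (m : ℝ)⁻¹ := by
    obtain ⟨j, rfl⟩ : ∃ j, n = j + 1 := ⟨n - 1, by omega⟩
    rw [Nat.add_sub_cancel, pow_succ]
    field_simp
  refine ⟨m, hmM, ?_, ?_⟩
  · have h1 : (5 : ℝ) * Φ m ≤ 2 * (3 * ((n : ℝ) + 3) * n.factorial) * a m := by
      have h2 := mul_le_mul_of_nonneg_left hm1.le (mul_pos hdR hmn).le
      have h3 : (dV : ℝ) * (m : ℝ) ^ n * (5 * (((n : ℝ) + 3) + C / dV * ((m : ℝ))⁻¹)) =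
          5 * (((n : ℝ) + 3) * dV * (m : ℝ) ^ n + C * (m : ℝ) ^ (n - 1)) := by
        rw [hpow]; field_simp
      have h4 : (dV : ℝ) * (m : ℝ) ^ n * (6 * ((n : ℝ) + 3) * (((m : ℝ) - c) / m) ^ n) =
          6 * ((n : ℝ) + 3) * (dV * ((m : ℝ) - c) ^ n) := by
        rw [div_pow]; field_simp
      rw [h3, h4] at h2
      calc (5 : ℝ) * Φ m ≤ 5 * (((n : ℝ) + 3) * dV * (m : ℝ) ^ n + C * (m : ℝ) ^ (n - 1)) := by
            linarith
        _ ≤ 6 * ((n : ℝ) + 3) * (dV * ((m : ℝ) - c) ^ n) := h2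
        _ ≤ 6 * ((n : ℝ) + 3) * (n.factorial * a m) :=
            mul_le_mul_of_nonneg_left haR (by positivity)
        _ = _ := by ring
    exact_mod_cast h1
  · have h2 := mul_lt_mul_of_pos_left hm2 (mul_pos hdR hmn)
    have h3 : (dV : ℝ) * (m : ℝ) ^ n * (5 * (((m : ℝ) + 1 + c) / m) ^ n +
        10 * n.factorial / dV * (((m : ℝ)) ^ n)⁻¹) =
        5 * (dV * ((m : ℝ) + 1 + c) ^ n) + 10 * n.factorial := by
      rw [div_pow]; field_simp
    have h4 : (dV : ℝ) * (m : ℝ) ^ n * (6 * (((m : ℝ) - c) / m) ^ n) =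
        6 * (dV * ((m : ℝ) - c) ^ n) := by
      rw [div_pow]; field_simp
    rw [h3, h4] at h2
    have h5 : (n.factorial : ℝ) * (5 * a (m + 1) + 10) < n.factorial * (6 * a m) := by
      calc (n.factorial : ℝ) * (5 * a (m + 1) + 10)
          = 5 * (n.factorial * a (m + 1)) + 10 * n.factorial := by ring
        _ ≤ 5 * (dV * ((m : ℝ) + 1 + c) ^ n) + 10 * n.factorial := by linarith
        _ < 6 * (dV * ((m : ℝ) - c) ^ n) := h2
        _ ≤ 6 * (n.factorial * a m) := by linarith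
        _ = _ := by ring
    have h6 := lt_of_mul_lt_mul_left h5 hfR.le
    exact_mod_cast h6

end Num

section Ext

variable {k : Type u} {K : Type v} [Field k] [Field K] [Algebra k K]

/-- The field generated by the ratios of elements of `S`. -/
def ratF (S : Submodule k K) : IntermediateField k K :=
  IntermediateField.adjoin k {x : K | ∃ f ∈ S, ∃ g ∈ S, x = g / f}

/-- A subspace of dimension more than half of the dimension of `V S` is birational. -/
theorem ratF_eq_top (V S T : Submodule k K) (hgen : IntermediateField.adjoin k (V : Set K) = ⊤)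
    (hS : S.FG) (hT : T.FG) (hST : S ≤ T) (hVS : V * S ≤ T)
    (hdim : Module.finrank k T < 2 * Module.finrank k S) : ratF S = ⊤ := by
  have hfinT : FiniteDimensional k T := Module.Finite.of_fg hT
  have hfinS : FiniteDimensional k S := Module.Finite.of_fg hS
  rw [eq_top_iff, ← hgen, IntermediateField.adjoin_le_iff]
  intro θ hθ
  by_contra hcon
  -- the map `(s, t) ↦ s + θ t` is injective
  let φ : (S × S) →ₗ[k] T :=
    { toFun := fun x => ⟨(x.1 : K) + θ * (x.2 : K), T.add_mem (hST x.1.2)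
        (hVS (Submodule.mul_mem_mul hθ x.2.2))⟩
      map_add' := fun x y => by
        apply Subtype.ext
        change ((x.1 + y.1 : S) : K) + θ * ((x.2 + y.2 : S) : K) =
          ((x.1 : K) + θ * (x.2 : K)) + ((y.1 : K) + θ * (y.2 : K))
        push_cast
        ring
      map_smul' := fun c x => by
        apply Subtype.ext
        change ((c • x.1 : S) : K) + θ * ((c • x.2 : S) : K) =
          c • ((x.1 : K) + θ * (x.2 : K))
        push_cast
        rw [smul_add, mul_smul_comm] }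
  have hinj : Function.Injective φ := by
    rw [injective_iff_map_eq_zero]
    rintro ⟨s, t⟩ hst
    have h1 : (s : K) + θ * (t : K) = 0 := congrArg Subtype.val hst
    by_cases ht : (t : K) = 0
    · rw [ht, mul_zero, add_zero] at h1
      exact Prod.ext (Subtype.ext h1) (Subtype.ext ht)
    · exfalso
      apply hcon
      have h2 : θ = -((s : K) / (t : K)) := by
        field_simp
        linear_combination h1
      rw [h2]
      exact neg_mem (IntermediateField.subset_adjoin _ _ ⟨t, t.2, s, s.2, rfl⟩)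
  have h3 := LinearMap.finrank_le_finrank_of_injective hinj
  rw [Module.finrank_prod] at h3
  omega

/-- **The extremal choice.** -/
theorem exists_extremal {n dV : ℕ} (hn : 0 < n) (hd : 0 < dV) (V : Submodule k K)
    (h1V : (1 : K) ∈ V) (hV : V.FG) (hgen : IntermediateField.adjoin k (V : Set K) = ⊤)
    (Φ : Submodule k K → ℕ) (c C : ℕ)
    (ha : ∀ N, c ≤ N → dV * (N - c) ^ n ≤ n.factorial * Module.finrank k (V ^ N : Submodule k K))
    (hb : ∀ N, n.factorial * Module.finrank k (V ^ N : Submodule k K) ≤ dV * (N + c) ^ n)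
    (hΦ : ∀ m, Φ (V ^ m) ≤ (n + 3) * dV * m ^ n + C * m ^ (n - 1)) (M : ℕ) :
    ∃ m, M ≤ m ∧ ∃ S : Submodule k K, S ≤ V ^ m ∧ ratF S = ⊤ ∧
      3 * Module.finrank k (V ^ m : Submodule k K) ≤ 5 * Module.finrank k S ∧
      ∀ S' : Submodule k K, S' ≤ S → Module.finrank k S ≤ Module.finrank k S' + 1 →
        ratF S' = ⊤ ∧ Φ S ≤ Φ S' + 3 * (n + 3) * n.factorial := by
  classical
  obtain ⟨m, hmM, hm1, hm2⟩ := exists_m hn hd (fun N => Module.finrank k (V ^ N : Submodule k K))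
    c C (fun m => Φ (V ^ m)) ha hb hΦ M
  obtain ⟨κ, hκ⟩ : ∃ κ, κ = 3 * (n + 3) * n.factorial := ⟨_, rfl⟩
  have hκ0 : 0 < κ := by rw [hκ]; positivity
  obtain ⟨a, ha'⟩ : ∃ a : ℕ → ℕ, a = fun N => Module.finrank k (V ^ N : Submodule k K) :=
    ⟨_, rfl⟩
  have haN : ∀ N, Module.finrank k (V ^ N : Submodule k K) = a N := fun N => by rw [ha']
  simp only [haN, ← hκ] at hm1 hm2 ⊢
  have hfgN : ∀ N, (V ^ N : Submodule k K).FG := fun N => hV.pow N
  have hfdN : ∀ N, FiniteDimensional k (V ^ N : Submodule k K) := fun N =>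
    Module.Finite.of_fg (hfgN N)
  have hVm : V ^ m ≤ V ^ (m + 1) := by
    intro x hx
    rw [pow_succ]
    have := Submodule.mul_mem_mul hx h1V
    rwa [mul_one] at this
  -- subspaces of large dimension are birational
  have hbir : ∀ S : Submodule k K, S ≤ V ^ m → a (m + 1) < 2 * Module.finrank k S →
      ratF S = ⊤ := by
    intro S hS hdim
    have hfS : FiniteDimensional k S := Submodule.finiteDimensional_of_le hS
    refine ratF_eq_top V S (V ^ (m + 1)) hgen (Module.Finite.iff_fg.mp hfS) (hfgN _)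
      (hS.trans hVm) ?_ (by rw [haN]; exact hdim)
    rw [pow_succ']
    exact mul_le_mul' le_rfl hS
  -- minimise `Φ S + κ (a m - dim S)`
  obtain ⟨S, ⟨hSm, hSb⟩, hmin⟩ : ∃ S : Submodule k K, (S ≤ V ^ m ∧ ratF S = ⊤) ∧
      ∀ T : Submodule k K, T ≤ V ^ m → ratF T = ⊤ →
        Φ S + κ * (a m - Module.finrank k S) ≤ Φ T + κ * (a m - Module.finrank k T) := by
    have hne : ∃ N : ℕ, ∃ S : Submodule k K, (S ≤ V ^ m ∧ ratF S = ⊤) ∧
        Φ S + κ * (a m - Module.finrank k S) = N := by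
      refine ⟨_, V ^ m, ⟨le_rfl, hbir _ le_rfl ?_⟩, rfl⟩
      rw [haN]
      omega
    obtain ⟨S, hS, hSN⟩ := Nat.find_spec hne
    refine ⟨S, hS, fun T hT hTb => ?_⟩
    rw [hSN]
    exact Nat.find_min' hne ⟨T, ⟨hT, hTb⟩, rfl⟩
  have hle : ∀ T : Submodule k K, T ≤ V ^ m → Module.finrank k T ≤ a m := by
    intro T hT
    rw [← haN]
    exact Submodule.finrank_mono hT
  have hSle := hle S hSm
  have hbig : 3 * a m ≤ 5 * Module.finrank k S := by
    have h1 := hmin (V ^ m) le_rfl (hbir _ le_rfl (by rw [haN]; omega))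
    rw [haN, Nat.sub_self, mul_zero, add_zero] at h1
    have h2 : κ * (a m - Module.finrank k S) ≤ Φ (V ^ m) := le_trans (Nat.le_add_left _ _) h1
    have h3 : 5 * (κ * (a m - Module.finrank k S)) ≤ 2 * κ * a m :=
      le_trans (Nat.mul_le_mul_left 5 h2) hm1
    have h4 : κ * (5 * (a m - Module.finrank k S)) ≤ κ * (2 * a m) := by
      calc κ * (5 * (a m - Module.finrank k S)) = 5 * (κ * (a m - Module.finrank k S)) := by ring
        _ ≤ 2 * κ * a m := h3
        _ = κ * (2 * a m) := by ring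
    have h5 := Nat.le_of_mul_le_mul_left h4 hκ0
    omega
  refine ⟨m, hmM, S, hSm, hSb, hbig, fun S' hS' hdim => ?_⟩
  have hS'b : ratF S' = ⊤ := hbir S' (hS'.trans hSm) (by omega)
  refine ⟨hS'b, ?_⟩
  have h1 := hmin S' (hS'.trans hSm) hS'b
  have h2 : κ * (a m - Module.finrank k S') ≤ κ * (a m - Module.finrank k S) + κ := by
    calc κ * (a m - Module.finrank k S') ≤ κ * ((a m - Module.finrank k S) + 1) :=
          Nat.mul_le_mul_left κ (by omega)
      _ = _ := by ring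
  omega

end Ext

end Pool.Agent.TG7
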