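import Mathlib

/-!
# TANK G, section C: free position by an automorphism

`k` algebraically closed of infinite transcendence degree over `κ`. For all finite families `U`, `H`
in `k` there is an automorphism `σ` of `k / κ` with `κ (σ U)` and `κ (H)` free over `κ`.
-/

set_option autoImplicit false

namespace Pool.Agent.TG7

open Cardinal

universe u v

section

variable {κ : Type u} {k : Type v} [Field κ] [Field k] [Algebra κ k]

/-- A bijection of transcendence bases extends to an automorphism. -/
theorem exists_aut_of_bases [IsAlgClosed k] {ι ι' : Type*} (x : ι → k) (y : ι' → k)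
    (hx : IsTranscendenceBasis κ x) (hy : IsTranscendenceBasis κ y) (e : ι ≃ ι') :
    ∃ σ : k ≃ₐ[κ] k, ∀ i, σ (x i) = y (e i) := by
  classical
  let e1 := hx.1.aevalEquiv
  let e2 := hy.1.aevalEquiv
  have h1 : ∀ p, ((e1 p : Algebra.adjoin κ (Set.range x)) : k) = MvPolynomial.aeval x p :=
    fun p => hx.1.algebraMap_aevalEquiv p
  have h2 : ∀ p, ((e2 p : Algebra.adjoin κ (Set.range y)) : k) = MvPolynomial.aeval y p :=
    fun p => hy.1.algebraMap_aevalEquiv p
  let E : Algebra.adjoin κ (Set.range x) ≃ₐ[κ] Algebra.adjoin κ (Set.range y) :=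
    e1.symm.trans ((MvPolynomial.renameEquiv κ e).trans e2)
  have c1 := IsAlgClosed.isAlgClosure_of_transcendence_basis x hx
  have c2 := IsAlgClosed.isAlgClosure_of_transcendence_basis y hy
  let s := IsAlgClosure.equivOfEquiv k k E.toRingEquiv
  have hs : ∀ a : Algebra.adjoin κ (Set.range x), s (a : k) = (E a : k) := fun a =>
    IsAlgClosure.equivOfEquiv_algebraMap k k E.toRingEquiv a
  have hk : ∀ a : κ, s (algebraMap κ k a) = algebraMap κ k a := by
    intro a
    have h3 := hs (algebraMap κ _ a)
    rw [AlgEquiv.commutes] at h3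
    exact h3
  refine ⟨AlgEquiv.ofRingEquiv (f := s) hk, fun i => ?_⟩
  have h3 := hs (e1 (MvPolynomial.X i))
  rw [h1, MvPolynomial.aeval_X] at h3
  have h4 : E (e1 (MvPolynomial.X i)) = e2 (MvPolynomial.X (e i)) := by
    change e2 (MvPolynomial.renameEquiv κ e (e1.symm (e1 (MvPolynomial.X i)))) = _
    rw [AlgEquiv.symm_apply_apply]
    congr 1
    change MvPolynomial.rename e (MvPolynomial.X i) = _
    rw [MvPolynomial.rename_X]
  rw [h4, h2, MvPolynomial.aeval_X] at h3
  exact h3

/-- A bijection between finite subsets extends to infinite sets of the same cardinality. -/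
theorem exists_equiv_extend {X Y : Type v} [Infinite X] (hXY : #X = #Y) {I : Type*} [Finite I]
    (b : I → X) (c : I → Y) (hb : Function.Injective b) (hc : Function.Injective c) :
    ∃ e : X ≃ Y, ∀ i, e (b i) = c i := by
  classical
  have hYinf : Infinite Y := by
    rw [Cardinal.infinite_iff, ← hXY, ← Cardinal.infinite_iff]; infer_instance
  have h1 : #((Set.range b)ᶜ : Set X) = #X :=
    Cardinal.mk_compl_of_infinite _ (lt_of_lt_of_le
      (Cardinal.lt_aleph0_iff_set_finite.mpr (Set.finite_range b)) (Cardinal.aleph0_le_mk X))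
  have h2 : #((Set.range c)ᶜ : Set Y) = #Y :=
    Cardinal.mk_compl_of_infinite _ (lt_of_lt_of_le
      (Cardinal.lt_aleph0_iff_set_finite.mpr (Set.finite_range c)) (Cardinal.aleph0_le_mk Y))
  obtain ⟨e2⟩ := Cardinal.eq.mp (h1.trans (hXY.trans h2.symm))
  let e1 : Set.range b ≃ Set.range c := (Equiv.ofInjective b hb).symm.trans
    (Equiv.ofInjective c hc)
  let e : X ≃ Y := (Equiv.Set.sumCompl (Set.range b)).symm.trans
    ((Equiv.sumCongr e1 e2).trans (Equiv.Set.sumCompl (Set.range c)))
  refine ⟨e, fun i => ?_⟩
  have h3 : (Equiv.Set.sumCompl (Set.range b)).symm (b i) =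
      Sum.inl (⟨b i, i, rfl⟩ : Set.range b) :=
    Equiv.Set.sumCompl_symm_apply_of_mem (s := Set.range b) (Set.mem_range_self i)
  change (Equiv.Set.sumCompl (Set.range c)) (Equiv.sumCongr e1 e2
    ((Equiv.Set.sumCompl (Set.range b)).symm (b i))) = c i
  rw [h3]
  change ((e1 ⟨b i, i, rfl⟩ : Set.range c) : Y) = c i
  have h4 : (⟨b i, i, rfl⟩ : Set.range b) = Equiv.ofInjective b hb i := rfl
  rw [h4]
  change ((Equiv.ofInjective c hc ((Equiv.ofInjective b hb).symm (Equiv.ofInjective b hb i)) :
    Set.range c) : Y) = c i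
  rw [Equiv.symm_apply_apply]
  rfl

/-- **Free position**, independent families. -/
theorem exists_aut_sumElim [IsAlgClosed k] (hinf : ℵ₀ ≤ Algebra.trdeg κ k) {I J : Type*}
    [Finite I] [Finite J] (b : I → k) (hb : AlgebraicIndependent κ b) (h : J → k)
    (hh : AlgebraicIndependent κ h) :
    ∃ σ : k ≃ₐ[κ] k, AlgebraicIndependent κ (Sum.elim (fun i => σ (b i)) h) := by
  classical
  obtain ⟨X, hX, hXb⟩ := exists_isTranscendenceBasis_superset (R := κ) (s := Set.range b)
    ((algebraicIndependent_subtype_range hb.injective).mpr hb)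
  obtain ⟨Y, hY, hYb⟩ := exists_isTranscendenceBasis_superset (R := κ) (s := Set.range h)
    ((algebraicIndependent_subtype_range hh.injective).mpr hh)
  have hcX : #X = Algebra.trdeg κ k := hXb.cardinalMk_eq_trdeg
  have hcY : #Y = Algebra.trdeg κ k := hYb.cardinalMk_eq_trdeg
  have hXinf : Infinite X := Cardinal.infinite_iff.mpr (hcX ▸ hinf)
  have hYinf : Infinite Y := Cardinal.infinite_iff.mpr (hcY ▸ hinf)
  let h' : J → Y := fun j => ⟨h j, hY ⟨j, rfl⟩⟩
  have hh' : Function.Injective h' := fun i j hij => hh.injective (congrArg Subtype.val hij)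
  -- new elements
  have hR : ((Set.range h')ᶜ : Set Y).Infinite := (Set.finite_range h').infinite_compl
  have hRi : Infinite ((Set.range h')ᶜ : Set Y) := hR.to_subtype
  obtain ⟨c0⟩ : Nonempty (I ↪ ((Set.range h')ᶜ : Set Y)) := by
    have : Fintype I := Fintype.ofFinite I
    exact ⟨(Fintype.equivFin I).toEmbedding.trans
      ((Fin.valEmbedding).trans (Infinite.natEmbedding _))⟩
  let c : I → Y := fun i => (c0 i : Y)
  have hc : Function.Injective c := fun i j hij => c0.injective (Subtype.ext hij)
  let b' : I → X := fun i => ⟨b i, hX ⟨i, rfl⟩⟩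
  have hb' : Function.Injective b' := fun i j hij => hb.injective (congrArg Subtype.val hij)
  obtain ⟨e, he⟩ := exists_equiv_extend (hcX.trans hcY.symm) b' c hb' hc
  obtain ⟨σ, hσ⟩ := exists_aut_of_bases _ _ hXb hYb e
  refine ⟨σ, ?_⟩
  have hσb : ∀ i, σ (b i) = ((c i : Y) : k) := by
    intro i
    have := hσ (b' i)
    rw [he] at this
    exact this
  have hfam : (Sum.elim (fun i => σ (b i)) h) = (fun y : Y => (y : k)) ∘ Sum.elim c h' := by
    ext x
    rcases x with i | j
    · exact hσb i
    · rfl
  rw [hfam]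
  refine hYb.1.comp _ ?_
  rintro (i | j) (i' | j') hij
  · exact congrArg Sum.inl (hc hij)
  · exact absurd ⟨j', hij.symm⟩ (c0 i).2
  · exact absurd ⟨j, hij⟩ (c0 i').2
  · exact congrArg Sum.inr (hh' hij)

/-- The elements of `k` algebraic over the algebra generated by a set form a field. -/
def algF (κ : Type u) {k : Type v} [Field κ] [Field k] [Algebra κ k] (s : Set k) :
    IntermediateField κ k where
  toSubalgebra := (Subalgebra.algebraicClosure (Algebra.adjoin κ s) k).restrictScalars κ
  inv_mem' x hx := by
    have h1 : IsAlgebraic (Algebra.adjoin κ s) x := hx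
    exact h1.inv

theorem mem_algF {s : Set k} {x : k} : x ∈ algF κ s ↔ IsAlgebraic (Algebra.adjoin κ s) x :=
  Iff.rfl

theorem subset_algF (s : Set k) : s ⊆ algF κ s := fun x hx =>
  mem_algF.mpr (isAlgebraic_algebraMap (⟨x, Algebra.subset_adjoin hx⟩ : Algebra.adjoin κ s))

/-- A set contains an algebraically independent subset over which its elements are algebraic. -/
theorem exists_indep_subset (s : Set k) :
    ∃ t ⊆ s, AlgebraicIndependent κ ((↑) : t → k) ∧
      IntermediateField.adjoin κ s ≤ algF κ t := by
  obtain ⟨t, -, ht⟩ := exists_maximal_algebraicIndependent (R := κ) (∅ : Set k) s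
    (Set.empty_subset _) ((algebraicIndependent_empty_iff ..).mpr
      (FaithfulSMul.algebraMap_injective κ k))
  refine ⟨t, ht.prop.2, ht.prop.1, ?_⟩
  rw [IntermediateField.adjoin_le_iff]
  intro x hx
  by_cases hxt : x ∈ t
  · exact subset_algF t hxt
  by_contra hcon
  have hT : Transcendental (Algebra.adjoin κ (id '' t)) (id x) := by
    rw [Set.image_id]
    exact fun h => hcon (mem_algF.mpr h)
  have h1 := ht.prop.1.insert hT
  exact hxt (ht.le_of_ge ⟨h1, Set.insert_subset hx ht.prop.2⟩ (Set.subset_insert x t)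
    (Set.mem_insert x t))

/-- Independent families over the field of elements algebraic over `adjoin κ s`. -/
theorem indep_algF {s : Set k} {J : Type*} {f : J → k}
    (hf : AlgebraicIndependent (Algebra.adjoin κ s) f) :
    AlgebraicIndependent (algF κ s) f := by
  have h1 := hf.subalgebraAlgebraicClosure
  exact h1

/-- Elements algebraic over `algF κ s` are in `algF κ s`. -/
theorem mem_algF_of_isAlgebraic {s : Set k} {x : k} (hx : IsAlgebraic (algF κ s) x) :
    x ∈ algF κ s := by
  rw [mem_algF]
  have h1 : IsAlgebraic (Subalgebra.algebraicClosure (Algebra.adjoin κ s) k) x := hx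
  exact h1.restrictScalars (Algebra.adjoin κ s)

/-- Elements algebraic over a subfield of `algF κ s` are in `algF κ s`. -/
theorem mem_algF_of_le {s : Set k} {F : IntermediateField κ k} (h : F ≤ algF κ s) {x : k}
    (hx : IsAlgebraic F x) : x ∈ algF κ s := by
  apply mem_algF_of_isAlgebraic
  exact hx.ringHom_of_comp_eq (IntermediateField.inclusion h) (RingHom.id k)
    (IntermediateField.inclusion h).injective (RingHom.ext fun y => rfl)

/-- `algF` is compatible with automorphisms. -/
theorem apply_mem_algF (σ : k ≃ₐ[κ] k) {s : Set k} {x : k} (hx : x ∈ algF κ s) :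
    σ x ∈ algF κ (σ '' s) := by
  rw [mem_algF] at hx ⊢
  have h1 : ∀ y : Algebra.adjoin κ s, σ (y : k) ∈ Algebra.adjoin κ (σ '' s) := by
    intro y
    have h2 : (Algebra.adjoin κ s).map (σ : k →ₐ[κ] k) = Algebra.adjoin κ (σ '' s) :=
      AlgHom.map_adjoin _ _
    rw [← h2]
    exact ⟨y, y.2, rfl⟩
  let g : Algebra.adjoin κ s →+* Algebra.adjoin κ (σ '' s) :=
    RingHom.codRestrict ((σ : k →+* k).comp (algebraMap (Algebra.adjoin κ s) k)) _ h1
  have hg : Function.Injective g := by
    intro a b hab
    have h3 : σ (a : k) = σ (b : k) := congrArg Subtype.val hab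
    exact Subtype.ext (σ.injective h3)
  exact hx.ringHom_of_comp_eq g (σ : k →+* k) hg (RingHom.ext fun y => rfl)

/-- Restriction of independence to a smaller field. -/
theorem indep_of_le {F G : IntermediateField κ k} (h : F ≤ G) {J : Type*} {f : J → k}
    (hf : AlgebraicIndependent G f) : AlgebraicIndependent F f := by
  let _ : Algebra F G := (IntermediateField.inclusion h).toRingHom.toAlgebra
  have : IsScalarTower F G k := IsScalarTower.of_algebraMap_eq fun x => rfl
  exact hf.restrictScalars (K := G) (FaithfulSMul.algebraMap_injective F G)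

/-- **Free position.** `k` algebraically closed of infinite transcendence degree over `κ`, `U`, `H`
finite families in `k`: some automorphism `σ` of `k / κ` makes `κ (σ U)` and the algebraic closure
of `κ (H)` free over `κ`: families that are algebraic over `κ (H)` and algebraically independent
over `κ` are algebraically independent over `κ (σ U)`. -/
theorem exists_aut_free [IsAlgClosed k] (hinf : ℵ₀ ≤ Algebra.trdeg κ k) {m N : Type*} [Finite m]
    [Finite N] (U : m → k) (H : N → k) :
    ∃ σ : k ≃ₐ[κ] k, ∀ {J : Type*} (f : J → k),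
      (∀ j, IsAlgebraic (IntermediateField.adjoin κ (Set.range H)) (f j)) →
      AlgebraicIndependent κ f →
      AlgebraicIndependent (IntermediateField.adjoin κ (Set.range fun i => σ (U i))) f := by
  obtain ⟨t, htU, hti, htA⟩ := exists_indep_subset (κ := κ) (Set.range U)
  obtain ⟨t', htH, hti', htA'⟩ := exists_indep_subset (κ := κ) (Set.range H)
  have : Finite t := (Set.finite_range U).subset htU
  have : Finite t' := (Set.finite_range H).subset htH
  obtain ⟨σ, hσ⟩ := exists_aut_sumElim hinf _ hti _ hti'
  refine ⟨σ, fun {J} f hfA hf => ?_⟩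
  have h1 := (AlgebraicIndependent.sumElim_iff.mp hσ).2
  rw [Subtype.range_val] at h1
  have h2 : AlgebraicIndependent (algF κ t') (fun i : t => σ (i : k)) := indep_algF h1
  have h3 : Set.range f ⊆ Set.range (algebraMap (algF κ t') k) := by
    rintro _ ⟨j, rfl⟩
    exact ⟨⟨f j, mem_algF_of_le htA' (hfA j)⟩, rfl⟩
  have h4 := hf.sumElim_of_tower (S := algF κ t') h3 h2
  have h5 : AlgebraicIndependent κ (Sum.elim f (fun i : t => σ (i : k))) := by
    have h6 := h4.comp Sum.swap Sum.swap_leftInverse.injective
    have h7 : Sum.elim (fun i : t => σ (i : k)) f ∘ Sum.swap =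
        Sum.elim f (fun i : t => σ (i : k)) := by
      ext x
      rcases x with x | x <;> rfl
    rwa [h7] at h6
  have h8 := indep_algF (AlgebraicIndependent.sumElim_iff.mp h5).2
  refine indep_of_le ?_ h8
  rw [IntermediateField.adjoin_le_iff]
  rintro _ ⟨i, rfl⟩
  have h9 : U i ∈ algF κ t :=
    htA (IntermediateField.subset_adjoin κ (Set.range U) (Set.mem_range_self i))
  have h10 : (σ '' t) = Set.range (fun i : t => σ (i : k)) := by
    ext x
    constructor
    · rintro ⟨y, hy, rfl⟩
      exact ⟨⟨y, hy⟩, rfl⟩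
    · rintro ⟨y, rfl⟩
      exact ⟨y, y.2, rfl⟩
  have h11 := apply_mem_algF σ h9
  rw [h10] at h11
  exact h11

/-- Variant over the field generated by a set, with the base `κ` an arbitrary field and elements
of the automorphism applied to an element of the generated field. -/
theorem apply_mem_adjoin (σ : k ≃ₐ[κ] k) {m : Type*} (U : m → k) {x : k}
    (hx : x ∈ IntermediateField.adjoin κ (Set.range U)) :
    σ x ∈ IntermediateField.adjoin κ (Set.range fun i => σ (U i)) := by
  have h1 : (IntermediateField.adjoin κ (Set.range U)).map (σ : k →ₐ[κ] k) =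
      IntermediateField.adjoin κ ((σ : k →ₐ[κ] k) '' Set.range U) :=
    IntermediateField.adjoin_map _ _ _
  have h2 : ((σ : k →ₐ[κ] k) '' Set.range U) = Set.range fun i => σ (U i) := by
    rw [← Set.range_comp]
    rfl
  rw [← h2, ← h1]
  exact ⟨x, hx, rfl⟩

end

end Pool.Agent.TG7

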