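import Mathlib

/-!
# TANK G, section B, row B2: the determinant `W(f) = det (f_j, D_1 f_j, .., D_n f_j)`

`D 0, .., D (n - 1)` are `k`-derivations of the field `K`.
-/

set_option autoImplicit false

open Matrix

namespace Pool.Agent.TG7

universe u v

section

variable {k : Type u} {K : Type v} [Field k] [Field K] [Algebra k K] {n : ℕ}

/-- The row `(x, D_1 x, .., D_n x)`. -/
def rowW (D : Fin n → Derivation k K K) : K →ₗ[k] (Fin (n + 1) → K) :=
  LinearMap.pi (Fin.cons (α := fun _ => K →ₗ[k] K) LinearMap.id fun i => (D i : K →ₗ[k] K))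

variable (D : Fin n → Derivation k K K)

theorem rowW_zero (x : K) : rowW D x 0 = x := rfl

theorem rowW_succ (x : K) (i : Fin n) : rowW D x i.succ = D i x := rfl

/-- The matrix with the rows `(f_j, D_1 f_j, .., D_n f_j)`. -/
def WM (f : Fin (n + 1) → K) : Matrix (Fin (n + 1)) (Fin (n + 1)) K :=
  Matrix.of fun j => rowW D (f j)

theorem WM_zero (f : Fin (n + 1) → K) (j : Fin (n + 1)) : WM D f j 0 = f j := rfl

theorem WM_succ (f : Fin (n + 1) → K) (j : Fin (n + 1)) (i : Fin n) :
    WM D f j i.succ = D i (f j) := rfl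

/-- The determinant. -/
def W (f : Fin (n + 1) → K) : K := (WM D f).det

/-- The determinant as a function of the `j`-th entry. -/
def Wlin (f : Fin (n + 1) → K) (j : Fin (n + 1)) : K →ₗ[k] K where
  toFun x := W D (Function.update f j x)
  map_add' x y := by
    have h : ∀ z, WM D (Function.update f j z) = (WM D f).updateRow j (rowW D z) := by
      intro z
      ext i l
      rw [updateRow_apply, WM, of_apply, Function.update_apply]
      split_ifs with h1
      · rfl
      · rfl
    simp only [W, h, map_add, det_updateRow_add]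
  map_smul' c x := by
    have h : ∀ z, WM D (Function.update f j z) = (WM D f).updateRow j (rowW D z) := by
      intro z
      ext i l
      rw [updateRow_apply, WM, of_apply, Function.update_apply]
      split_ifs with h1
      · rfl
      · rfl
    simp only [W, h, map_smul, RingHom.id_apply]
    have h2 : c • rowW D x = algebraMap k K c • rowW D x := by
      ext i
      rw [Pi.smul_apply, Pi.smul_apply, Algebra.smul_def, smul_eq_mul]
    rw [h2, det_updateRow_smul, Algebra.smul_def]

theorem Wlin_apply (f : Fin (n + 1) → K) (j : Fin (n + 1)) (x : K) :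
    Wlin D f j x = W D (Function.update f j x) := rfl

theorem Wlin_self (f : Fin (n + 1) → K) (j : Fin (n + 1)) : Wlin D f j (f j) = W D f := by
  rw [Wlin_apply, Function.update_eq_self]

/-- `W = 0` if two entries are equal. -/
theorem W_eq_zero_of_eq (f : Fin (n + 1) → K) {i j : Fin (n + 1)} (h : f i = f j) (hij : i ≠ j) :
    W D f = 0 := by
  refine det_zero_of_row_eq hij ?_
  rw [WM]
  ext l
  rw [of_apply, of_apply, h]

/-- `W (g f) = g ^ (n + 1) W (f)`. -/
theorem W_mul (g : K) (f : Fin (n + 1) → K) :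
    W D (fun j => g * f j) = g ^ (n + 1) * W D f := by
  -- the matrix of the column operations
  obtain ⟨T, hT⟩ : ∃ T : Matrix (Fin (n + 1)) (Fin (n + 1)) K, T = Matrix.of fun i j =>
      Fin.cases (rowW D g j) (fun a => if (a.succ : Fin (n + 1)) = j then g else 0) i := ⟨_, rfl⟩
  have hT0 : ∀ j, T 0 j = rowW D g j := fun j => by rw [hT]; rfl
  have hTs : ∀ (a : Fin n) j, T a.succ j = if (a.succ : Fin (n + 1)) = j then g else 0 :=
    fun a j => by rw [hT]; rfl
  have h1 : WM D (fun j => g * f j) = WM D f * T := by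
    ext i j
    rw [mul_apply, Fin.sum_univ_succ, hT0]
    simp only [hTs]
    rw [WM_zero]
    refine Fin.cases ?_ (fun b => ?_) j
    · rw [rowW_zero, WM_zero, Finset.sum_eq_zero]
      · ring
      · intro a _
        rw [if_neg (Fin.succ_ne_zero a), mul_zero]
    · rw [rowW_succ, WM_succ, Finset.sum_eq_single b]
      · rw [if_pos rfl, WM_succ, Derivation.leibniz, smul_eq_mul, smul_eq_mul]
        ring
      · intro a _ hab
        rw [if_neg (fun h => hab (Fin.succ_injective _ h)), mul_zero]
      · intro h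
        exact absurd (Finset.mem_univ _) h
  have h2 : T.det = g ^ (n + 1) := by
    rw [det_of_isUpperTriangular]
    · rw [Fin.prod_univ_succ, hT0, rowW_zero]
      have : ∀ a : Fin n, T a.succ a.succ = g := fun a => by rw [hTs, if_pos rfl]
      simp only [this]
      rw [Finset.prod_const, Finset.card_univ, Fintype.card_fin, pow_succ']
    · intro i j hij
      refine Fin.cases (fun hij => ?_) (fun a hij => ?_) i hij
      · exact absurd hij (Nat.not_lt_zero _)
      · rw [hTs, if_neg]
        rintro rfl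
        exact lt_irrefl _ hij
  rw [W, W, h1, det_mul, h2, mul_comm]

/-- A change of basis. -/
theorem W_matrix (M : Matrix (Fin (n + 1)) (Fin (n + 1)) k) (f : Fin (n + 1) → K) :
    W D (fun j => ∑ i, M j i • f i) = algebraMap k K M.det * W D f := by
  have h1 : WM D (fun j => ∑ i, M j i • f i) = (M.map (algebraMap k K)) * WM D f := by
    ext i j
    rw [mul_apply, WM, of_apply, map_sum, Finset.sum_apply]
    refine Finset.sum_congr rfl fun a _ => ?_
    rw [map_smul, Pi.smul_apply, Algebra.smul_def, map_apply]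
    rfl
  rw [W, W, h1, det_mul, RingHom.map_det]
  rfl

/-- `W` does not vanish: the entries are linearly independent over `k`. -/
theorem linearIndependent_of_W (f : Fin (n + 1) → K) (h : W D f ≠ 0) :
    LinearIndependent k f := by
  rw [Fintype.linearIndependent_iff]
  intro g hg
  by_contra hcon
  push Not at hcon
  obtain ⟨i, hi⟩ := hcon
  apply h
  have h1 : Matrix.vecMul (fun j => algebraMap k K (g j)) (WM D f) = 0 := by
    ext l
    rw [vecMul, dotProduct]
    have h2 : ∑ j, algebraMap k K (g j) * WM D f j l = rowW D (∑ j, g j • f j) l := by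
      rw [map_sum, Finset.sum_apply]
      refine Finset.sum_congr rfl fun j _ => ?_
      rw [map_smul, Pi.smul_apply, Algebra.smul_def]
      rfl
    rw [h2, hg, map_zero]
  by_contra hdet
  have h3 := Matrix.eq_zero_of_vecMul_eq_zero hdet h1
  have h4 := congrFun h3 i
  rw [Pi.zero_apply, map_eq_zero] at h4
  exact hi h4

/-- The matrix `(D_i l_j)`. -/
def DM (l : Fin n → K) : Matrix (Fin n) (Fin n) K := Matrix.of fun j i => D i (l j)

theorem DM_apply (l : Fin n → K) (j i : Fin n) : DM D l j i = D i (l j) := rfl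

theorem W_cons_one (l : Fin n → K) : W D (Fin.cons 1 l) = (DM D l).det := by
  rw [W, det_succ_row_zero, Fin.sum_univ_succ, Finset.sum_eq_zero, add_zero, WM_zero]
  · have h1 : (WM D (Fin.cons 1 l : Fin (n + 1) → K)).submatrix Fin.succ
        (Fin.succAbove 0) = DM D l := by
      ext j i
      rw [submatrix_apply, Fin.zero_succAbove, WM_succ, Fin.cons_succ, DM_apply]
    rw [h1, Fin.val_zero, pow_zero, one_mul, Fin.cons_zero, one_mul]
  · intro i _
    rw [WM_succ, Fin.cons_zero, Derivation.map_one_eq_zero, mul_zero, zero_mul]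

/-- `W (f) = f_0 ^ (n + 1) det (D_i (f_j / f_0))`. -/
theorem W_eq (f : Fin (n + 1) → K) (h0 : f 0 ≠ 0) :
    W D f = f 0 ^ (n + 1) * (DM D fun j => f j.succ / f 0).det := by
  rw [← W_cons_one, ← W_mul]
  congr 1
  ext j
  refine Fin.cases ?_ (fun i => ?_) j
  · rw [Fin.cons_zero, mul_one]
  · rw [Fin.cons_succ, mul_div_cancel₀ _ h0]

theorem der_sum_apply {ι : Type*} (s : Finset ι) (E : ι → Derivation k K K) (x : K) :
    (∑ a ∈ s, E a) x = ∑ a ∈ s, E a x := by
  have h := congrFun (map_sum (Derivation.coeFnAddMonoidHom (R := k) (A := K) (M := K)) E s) x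
  rw [Finset.sum_apply] at h
  exact h

/-- The dual derivations `D'_i` with `D'_i (l_j) = δ_ij`. -/
theorem exists_dual (l : Fin n → K) (h : (DM D l).det ≠ 0) :
    ∃ D' : Fin n → Derivation k K K, (∀ i j, D' i (l j) = if i = j then 1 else 0) ∧
      (∀ O : Subring K, (∀ i, ∀ x ∈ O, D i x ∈ O) → (∀ j, l j ∈ O) → ((DM D l).det)⁻¹ ∈ O →
        ∀ i, ∀ x ∈ O, D' i x ∈ O) ∧
      ∀ i, ∃ c : Fin n → K, D' i = ∑ a, c a • D a := by
  classical
  obtain ⟨N, hN⟩ : ∃ N, N = (DM D l)⁻¹ := ⟨_, rfl⟩
  have hu : IsUnit (DM D l).det := isUnit_iff_ne_zero.mpr h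
  have h1 : DM D l * N = 1 := by rw [hN]; exact mul_nonsing_inv _ hu
  refine ⟨fun i => ∑ a, N a i • D a, fun i j => ?_, fun O hO hl hd i x hx => ?_, fun i =>
    ⟨fun a => N a i, rfl⟩⟩
  · have h2 := congrFun (congrFun h1 j) i
    rw [mul_apply, one_apply] at h2
    rw [der_sum_apply]
    have h3 : ∑ a, (N a i • D a) (l j) = ∑ a, DM D l j a * N a i := by
      refine Finset.sum_congr rfl fun a _ => ?_
      rw [Derivation.smul_apply, smul_eq_mul, DM_apply, mul_comm]
    rw [h3, h2]
    by_cases hij : i = j
    · rw [if_pos hij, if_pos hij.symm]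
    · rw [if_neg hij, if_neg (Ne.symm hij)]
  · rw [der_sum_apply]
    refine sum_mem fun a _ => ?_
    rw [Derivation.smul_apply, smul_eq_mul]
    refine mul_mem ?_ (hO a x hx)
    -- the entries of the inverse are in `O`
    have h4 : ∀ i j, DM D l i j ∈ O := fun i j => hO _ _ (hl _)
    obtain ⟨M, hM⟩ : ∃ M : Matrix (Fin n) (Fin n) O, M.map O.subtype = DM D l :=
      ⟨Matrix.of fun i j => ⟨DM D l i j, h4 i j⟩, by ext i j; rfl⟩
    have h5 : N = ((DM D l).det)⁻¹ • (DM D l).adjugate := by
      rw [hN, inv_def, Ring.inverse_eq_inv']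
    have h6 : (DM D l).adjugate = M.adjugate.map O.subtype := by
      rw [← hM]
      exact (RingHom.map_adjugate O.subtype M).symm
    rw [h5, Matrix.smul_apply, smul_eq_mul, h6, map_apply]
    exact mul_mem hd (M.adjugate a i).2

/-- If `W` vanishes on `S`, a nonzero combination of the `D_i` kills all ratios. -/
theorem exists_killing (hn : 0 < n) (S : Submodule k K)
    (hS : ∀ f : Fin (n + 1) → K, (∀ j, f j ∈ S) → W D f = 0) :
    ∃ c : Fin n → K, c ≠ 0 ∧ ∀ s ∈ S, ∀ t ∈ S, t ≠ 0 → (∑ i, c i • D i) (s / t) = 0 := by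
  classical
  by_cases hS0 : ∃ t ∈ S, t ≠ 0
  swap
  · push Not at hS0
    refine ⟨fun _ => 1, fun h => ?_, fun s _ t ht ht0 => absurd (hS0 t ht) ht0⟩
    exact one_ne_zero (congrFun h ⟨0, hn⟩)
  obtain ⟨t, ht, ht0⟩ := hS0
  -- the span of the vectors `(D_i (s / t))`
  obtain ⟨g, hg⟩ : ∃ g : S → (Fin n → K), g = fun (s : S) (i : Fin n) => D i ((s : K) / t) :=
    ⟨_, rfl⟩
  obtain ⟨U, hU⟩ : ∃ U : Submodule K (Fin n → K), U = Submodule.span K (Set.range g) := ⟨_, rfl⟩
  have hUne : U ≠ ⊤ := by
    intro htop
    obtain ⟨b, hb, hbs, hbi⟩ := exists_linearIndependent K (Set.range g)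
    have hfin : Finite b := hbi.finite
    have hft : Fintype b := Fintype.ofFinite b
    obtain ⟨B, hB⟩ : ∃ B : Module.Basis b K (Fin n → K), ∀ x, B x = (x : Fin n → K) := by
      refine ⟨Module.Basis.mk hbi ?_, fun x => by rw [Module.Basis.mk_apply]⟩
      rw [Subtype.range_coe, hbs, ← hU, htop]
    have hcard : Fintype.card b = n := by
      rw [← Module.finrank_eq_card_basis B, Module.finrank_fin_fun]
    let e : Fin n ≃ b := (Fintype.equivFinOfCardEq hcard).symm
    have hs : ∀ j : Fin n, ∃ s : S, g s = (e j : Fin n → K) := fun j => hb (e j).2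
    choose σ hσ using hs
    have h1 : LinearIndependent K (fun j : Fin n => ((e j : b) : Fin n → K)) :=
      hbi.comp e e.injective
    have h2 : (DM D fun j => ((σ j : S) : K) / t).det ≠ 0 := by
      have h3 : (DM D fun j => ((σ j : S) : K) / t).row = fun j : Fin n =>
          ((e j : b) : Fin n → K) := by
        ext j i
        rw [← hσ, hg]
        rfl
      have h4 : IsUnit (DM D fun j => ((σ j : S) : K) / t) := by
        rw [← Matrix.linearIndependent_rows_iff_isUnit, h3]
        exact h1
      exact ((Matrix.isUnit_iff_isUnit_det _).mp h4).ne_zero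
    have h5 := hS (Fin.cons t fun j => ((σ j : S) : K)) (fun j => by
      refine Fin.cases ?_ (fun i => ?_) j
      · exact ht
      · exact (σ i).2)
    rw [W_eq D _ (by rw [Fin.cons_zero]; exact ht0)] at h5
    rcases mul_eq_zero.mp h5 with h6 | h6
    · exact ht0 (pow_eq_zero_iff (Nat.succ_ne_zero n) |>.mp h6)
    · apply h2
      rw [← h6]
      rfl
  obtain ⟨φ, hφ0, hφ⟩ := Submodule.exists_le_ker_of_lt_top U (lt_top_iff_ne_top.mpr hUne)
  refine ⟨fun i => φ (Pi.single i 1), fun h => hφ0 ?_, ?_⟩
  · refine LinearMap.pi_ext' fun i => LinearMap.ext_ring ?_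
    exact congrFun h i
  obtain ⟨E, hE⟩ : ∃ E : Derivation k K K, E = ∑ i, φ (Pi.single i 1) • D i := ⟨_, rfl⟩
  have hE1 : ∀ s ∈ S, E (s / t) = 0 := by
    intro s hs
    have h1 : g ⟨s, hs⟩ ∈ U := by rw [hU]; exact Submodule.subset_span ⟨_, rfl⟩
    have h2 : φ (g ⟨s, hs⟩) = 0 := hφ h1
    rw [hE, der_sum_apply]
    have h3 : g ⟨s, hs⟩ = ∑ i, (D i (s / t)) • (Pi.single i 1 : Fin n → K) := by
      rw [hg]
      ext i
      rw [Finset.sum_apply, Finset.sum_eq_single i]
      · simp
      · intro j _ hji
        rw [Pi.smul_apply, Pi.single_eq_of_ne (Ne.symm hji), smul_zero]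
      · intro h
        exact absurd (Finset.mem_univ _) h
    rw [h3, map_sum] at h2
    rw [← h2]
    refine Finset.sum_congr rfl fun i _ => ?_
    rw [map_smul, Derivation.smul_apply, smul_eq_mul, smul_eq_mul, mul_comm]
  rw [← hE]
  intro s hs r hr hr0
  have h4 : s / r = (s / t) / (r / t) := by
    field_simp
  rw [h4, Derivation.leibniz_div, hE1 s hs, hE1 r hr]
  simp

end

section Generic

variable {k : Type u} {K : Type v} [Field k] [Field K] [Algebra k K]

/-- Finitely many valuation rings containing `k` and finitely many linear maps: a generic element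
of `S` has the minimal value simultaneously. -/
theorem exists_generic [Infinite k] {ι : Type*} [Finite ι] (S : Submodule k K) (hS : S.FG)
    (V : ι → ValuationSubring K) (hV : ∀ i, ∀ c : k, algebraMap k K c ∈ V i)
    (L : ι → K →ₗ[k] K) (bad : Finset (Submodule k K)) (hbad : ∀ U ∈ bad, ¬ S ≤ U) :
    ∃ s ∈ S, (∀ U ∈ bad, s ∉ U) ∧ ∀ i, ∀ x ∈ S, (V i).valuation (L i x) ≤
      (V i).valuation (L i s) := by
  classical
  have hft : Fintype ι := Fintype.ofFinite ι
  -- the maximum of the multiplicative values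
  have hmax : ∀ i, ∃ m ∈ S, ∀ x ∈ S, (V i).valuation (L i x) ≤ (V i).valuation (L i m) := by
    intro i
    obtain ⟨T, hT⟩ := hS
    rcases T.eq_empty_or_nonempty with h0 | hne
    · refine ⟨0, S.zero_mem, fun x hx => ?_⟩
      rw [← hT, h0, Finset.coe_empty, Submodule.span_empty, Submodule.mem_bot] at hx
      rw [hx]
    obtain ⟨m, hm, hmm⟩ := T.exists_max_image (fun y => (V i).valuation (L i y)) hne
    refine ⟨m, hT ▸ Submodule.subset_span hm, fun x hx => ?_⟩
    rw [← hT] at hx
    induction hx using Submodule.span_induction with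
    | mem x hx => exact hmm x hx
    | zero => rw [map_zero, map_zero]; exact zero_le
    | add x y _ _ hx hy =>
      rw [map_add]
      exact ((V i).valuation.map_add _ _).trans (max_le hx hy)
    | smul c x _ hx =>
      rw [map_smul, Algebra.smul_def, map_mul]
      calc (V i).valuation (algebraMap k K c) * (V i).valuation (L i x)
          ≤ 1 * (V i).valuation (L i m) :=
            mul_le_mul' ((ValuationSubring.valuation_le_one_iff _ _).mpr (hV i c)) hx
        _ = _ := one_mul _
  choose m hmS hm using hmax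
  -- the proper subspaces
  let J := {i : ι // L i (m i) ≠ 0}
  let Bd : J → Submodule k S := fun i =>
    { carrier := {x | (V i.1).valuation (L i.1 x) < (V i.1).valuation (L i.1 (m i.1))}
      add_mem' := by
        intro a b ha hb
        change (V i.1).valuation (L i.1 ((a + b : S) : K)) < _
        rw [Submodule.coe_add, map_add]
        exact lt_of_le_of_lt ((V i.1).valuation.map_add _ _) (max_lt ha hb)
      zero_mem' := by
        change (V i.1).valuation (L i.1 ((0 : S) : K)) < _
        rw [Submodule.coe_zero, map_zero, map_zero]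
        exact zero_lt_iff.mpr (by rw [Ne, map_eq_zero]; exact i.2)
      smul_mem' := by
        intro c x hx
        change (V i.1).valuation (L i.1 ((c • x : S) : K)) < _
        rw [Submodule.coe_smul, map_smul, Algebra.smul_def, map_mul]
        calc (V i.1).valuation (algebraMap k K c) * (V i.1).valuation (L i.1 x)
            ≤ 1 * (V i.1).valuation (L i.1 x) :=
              mul_le_mul' ((ValuationSubring.valuation_le_one_iff _ _).mpr (hV i.1 c)) le_rfl
          _ = (V i.1).valuation (L i.1 x) := one_mul _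
          _ < _ := hx }
  obtain ⟨F, hF⟩ : ∃ F : Finset (Submodule k S), F = (bad.image fun U => U.comap S.subtype) ∪
      Finset.univ.image Bd := ⟨_, rfl⟩
  have htop : (⊤ : Submodule k S) ∉ F := by
    intro h
    rw [hF, Finset.mem_union, Finset.mem_image, Finset.mem_image] at h
    rcases h with ⟨U, hU, h⟩ | ⟨i, -, h⟩
    · apply hbad U hU
      intro x hx
      have h1 : (⟨x, hx⟩ : S) ∈ U.comap S.subtype := by rw [h]; trivial
      exact h1
    · have h1 : (⟨m i.1, hmS i.1⟩ : S) ∈ Bd i := by rw [h]; trivial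
      have h3 : (V i.1).valuation (L i.1 (m i.1)) < (V i.1).valuation (L i.1 (m i.1)) := h1
      exact lt_irrefl _ h3
  have h2 := Subspace.biUnion_ne_univ_of_top_notMem htop
  obtain ⟨s, hs⟩ := (Set.ne_univ_iff_exists_notMem _).mp h2
  refine ⟨s, s.2, fun U hU hsU => hs ?_, fun i x hx => ?_⟩
  · rw [Set.mem_iUnion₂]
    refine ⟨U.comap S.subtype, ?_, hsU⟩
    rw [hF]
    exact Finset.mem_union_left _ (Finset.mem_image_of_mem _ hU)
  · by_cases h0 : L i (m i) = 0
    · have h3 := hm i x hx
      rw [h0, map_zero] at h3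
      exact h3.trans zero_le
    · by_contra hlt
      rw [not_le] at hlt
      apply hs
      rw [Set.mem_iUnion₂]
      refine ⟨Bd ⟨i, h0⟩, ?_, hlt.trans_le (hm i x hx)⟩
      rw [hF]
      exact Finset.mem_union_right _ (Finset.mem_image_of_mem _ (Finset.mem_univ _))

end Generic

end Pool.Agent.TG7
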